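import Mathlib

/-!
# MP_45e6b1_al: descent right ideals `X^q_F` are in general neither self-dual nor trivial source

Conventions.  The problem lets `S_n` act on the right, `i ↦ iσ`, with product `i(στ) = (iσ)τ`.
Lean's product in `Equiv.Perm (Fin n)` is `(τ * σ) i = τ (σ i)`, the opposite one.  Hence the
problem's right ideal `Ξ^q F S_n` is, in Lean's group algebra, the left ideal generated by `Ξ^q`,
and right modules of the problem are left modules (representations) here.  Points and positions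
are numbered from `0`.
-/

open Equiv

namespace Pool.Agent.Results.MP_45e6b1_al.DescentIdeals

universe u v w

/-! ## Representations: isomorphism, self-duality, direct summands, trivial source -/

section Reps

variable {F : Type u} [Field F] {G : Type} [Group G]
variable {V : Type v} [AddCommGroup V] [Module F V] {W : Type w} [AddCommGroup W] [Module F W]

/-- Equivariant linear maps. -/
def Equivariant (ρ : Representation F G V) (σ : Representation F G W) (f : V →ₗ[F] W) : Prop :=
  ∀ (g : G) (x : V), f (ρ g x) = σ g (f x)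

/-- Isomorphism of representations. -/
def Iso (ρ : Representation F G V) (σ : Representation F G W) : Prop :=
  ∃ e : V ≃ₗ[F] W, Equivariant ρ σ (e : V →ₗ[F] W)

/-- `V` is isomorphic to its contragredient dual `Hom_F(V, F)`. -/
def SelfDual (ρ : Representation F G V) : Prop := Iso ρ ρ.dual

/-- `ρ` is (isomorphic to) a direct summand of `σ`. -/
def IsSummand (ρ : Representation F G V) (σ : Representation F G W) : Prop :=
  ∃ (i : V →ₗ[F] W) (r : W →ₗ[F] V), Equivariant ρ σ i ∧ Equivariant σ ρ r ∧ ∀ x, r (i x) = x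

variable (F) in
/-- The action of `g` on the functions on a `G`-set: `(g f)(ω) = f(g⁻¹ ω)`. -/
def permMap (Ω : Type) [MulAction G Ω] (g : G) : (Ω → F) →ₗ[F] (Ω → F) :=
  LinearMap.funLeft F F (fun ω => g⁻¹ • ω)

variable (F) in
/-- The permutation representation on the functions on a `G`-set. -/
def permRep (Ω : Type) [MulAction G Ω] : Representation F G (Ω → F) where
  toFun := permMap F Ω
  map_one' := by ext f ω; simp [permMap, LinearMap.funLeft]
  map_mul' g h := by ext f ω; simp [permMap, LinearMap.funLeft, mul_smul]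

/-- Trivial source module: direct summand of a finite permutation module. -/
def TrivialSource (ρ : Representation F G V) : Prop :=
  ∃ (Ω : Type) (_ : Finite Ω) (_ : MulAction G Ω), IsSummand ρ (permRep F (G := G) Ω)

/-- A subspace stable under the group. -/
def Stable (ρ : Representation F G V) (N : Submodule F V) : Prop :=
  ∀ (g : G), ∀ x ∈ N, ρ g x ∈ N

/-- The action of `g` on a stable subspace. -/
def subMap (ρ : Representation F G V) (N : Submodule F V) (h : Stable ρ N) (g : G) :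
    N →ₗ[F] N :=
  (ρ g).restrict (h g)

/-- The subrepresentation on a stable subspace. -/
def subRep (ρ : Representation F G V) (N : Submodule F V) (h : Stable ρ N) :
    Representation F G N where
  toFun := subMap ρ N h
  map_one' := by ext x; simp [subMap]
  map_mul' g k := by ext x; simp [subMap]

/-- The subspace `N` has a stable complement. -/
def HasCompl (ρ : Representation F G V) (N : Submodule F V) : Prop :=
  ∃ N' : Submodule F V, Stable ρ N' ∧ IsCompl N N'

/-- Indecomposable representation: nonzero, and not the direct sum of two nonzero stable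
subspaces. -/
def Indecomposable (ρ : Representation F G V) : Prop :=
  (∃ x : V, x ≠ 0) ∧ ∀ N N' : Submodule F V, Stable ρ N → Stable ρ N' → IsCompl N N' →
    N = ⊥ ∨ N' = ⊥

end Reps

/-! ## The modules `X^q_F` -/

section Descent

/-- `Des(σ) ⊆ S(q)`.  The position `i + 1` (numbered from 1) is a descent when
`σ (i + 1) < σ i` (numbered from 0), and `S(q)` consists of the partial sums
`q_1 + ⋯ + q_j` with `0 < j < k`. -/
def DesIn {n : ℕ} (q : Composition n) (σ : Perm (Fin n)) : Prop :=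
  ∀ (i : ℕ) (h : i + 1 < n), σ ⟨i + 1, h⟩ < σ ⟨i, Nat.lt_of_succ_lt h⟩ →
    ∃ j, 0 < j ∧ j < q.length ∧ q.sizeUpTo j = i + 1

open Classical in
/-- The Solomon descent element `Ξ^q`. -/
noncomputable def Xi (F : Type u) [Field F] {n : ℕ} (q : Composition n) :
    MonoidAlgebra F (Perm (Fin n)) :=
  ∑ σ ∈ Finset.univ.filter (fun σ : Perm (Fin n) => DesIn q σ), MonoidAlgebra.single σ 1

/-- The regular representation of `G` on its group algebra. -/
noncomputable def regRep (F : Type u) [Field F] (G : Type) [Group G] :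
    Representation F G (MonoidAlgebra F G) where
  toFun g := LinearMap.mulLeft F (MonoidAlgebra.single g 1)
  map_one' := by ext x; simp [← MonoidAlgebra.one_def]
  map_mul' g h := by ext x; simp [← mul_assoc, MonoidAlgebra.single_mul_single]

/-- `X^q_F`: the `F`-space underlying the left ideal of Lean's group algebra generated by `Ξ^q`
(a right ideal for the product of the problem). -/
noncomputable def X (F : Type u) [Field F] {n : ℕ} (q : Composition n) :
    Submodule F (MonoidAlgebra F (Perm (Fin n))) :=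
  (Ideal.span {Xi F q}).restrictScalars F

lemma X_stable (F : Type u) [Field F] {n : ℕ} (q : Composition n) :
    Stable (regRep F (Perm (Fin n))) (X F q) := fun g x hx => by
  change MonoidAlgebra.single g 1 * x ∈ Ideal.span {Xi F q}
  exact Ideal.mul_mem_left _ _ hx

/-- `X^q_F` as a representation of `S_n`. -/
noncomputable def descentRep (F : Type u) [Field F] {n : ℕ} (q : Composition n) :
    Representation F (Perm (Fin n)) (X F q) :=
  subRep (regRep F (Perm (Fin n))) (X F q) (X_stable F q)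

end Descent

/-! ## Young modules -/

section Young

/-- Tabloids of shape `μ`, as row functions: `f x` is the row of the entry `x`. -/
def Tabloid (n : ℕ) (μ : YoungDiagram) : Type :=
  {f : Fin n → ℕ // ∃ t : Fin n ≃ μ.cells, ∀ x, f x = (t x).1.1}

instance (n : ℕ) (μ : YoungDiagram) : MulAction (Perm (Fin n)) (Tabloid n μ) where
  smul g f := ⟨fun x => f.1 (g⁻¹ x), by
    obtain ⟨t, ht⟩ := f.2
    exact ⟨g⁻¹.trans t, fun x => ht _⟩⟩
  one_smul f := by apply Subtype.ext; rfl
  mul_smul g h f := by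
    apply Subtype.ext
    funext x
    change f.1 ((g * h)⁻¹ x) = f.1 (h⁻¹ (g⁻¹ x))
    simp

/-- The tabloid `{t}` of a tableau `t` (given by the cell `t x` of each entry `x`). -/
def tabloidOf {n : ℕ} {μ : YoungDiagram} (t : Fin n ≃ μ.cells) : Tabloid n μ :=
  ⟨fun x => (t x).1.1, t, fun _ => rfl⟩

/-- The column stabiliser of the tableau `t`. -/
def colStab {n : ℕ} {μ : YoungDiagram} (t : Fin n ≃ μ.cells) : Finset (Perm (Fin n)) :=
  Finset.univ.filter (fun g : Perm (Fin n) => ∀ x, (t (g x)).1.2 = (t x).1.2)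

/-- The sign of a permutation in `F`. -/
def sgn (F : Type u) [Field F] {n : ℕ} (g : Perm (Fin n)) : F := ((Perm.sign g : ℤ) : F)

open Classical in
/-- The basis vector of `M^μ` given by a tabloid. -/
noncomputable def tabVec (F : Type u) [Field F] {n : ℕ} {μ : YoungDiagram} (f : Tabloid n μ) :
    Tabloid n μ → F :=
  fun f' => if f' = f then 1 else 0

/-- The polytabloid `e_t = ∑ sgn(g) g{t}`, over `g` in the column stabiliser of `t`. -/
noncomputable def polytabloid (F : Type u) [Field F] {n : ℕ} {μ : YoungDiagram}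
    (t : Fin n ≃ μ.cells) : Tabloid n μ → F :=
  fun f => ∑ g ∈ colStab t, sgn F g * tabVec F (g • tabloidOf t) f

/-- The Specht module `S^μ ⊆ M^μ`. -/
noncomputable def specht (F : Type u) [Field F] (n : ℕ) (μ : YoungDiagram) :
    Submodule F (Tabloid n μ → F) :=
  Submodule.span F (Set.range fun t : Fin n ≃ μ.cells => polytabloid F t)

/-- The permutation module `M^μ` on tabloids. -/
def tabRep (F : Type u) [Field F] (n : ℕ) (μ : YoungDiagram) :
    Representation F (Perm (Fin n)) (Tabloid n μ → F) :=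
  permRep F (Tabloid n μ)

/-- `ρ` is a Young module `Y^μ`: an indecomposable direct summand of the permutation module
`M^μ` (on tabloids) that contains the Specht module `S^μ`. -/
def IsYoung {F : Type u} [Field F] {n : ℕ} {V : Type v} [AddCommGroup V] [Module F V]
    (ρ : Representation F (Perm (Fin n)) V) (μ : YoungDiagram) : Prop :=
  ∃ (N : Submodule F (Tabloid n μ → F)) (hN : Stable (tabRep F n μ) N),
    μ.card = n ∧ HasCompl (tabRep F n μ) N ∧ specht F n μ ≤ N ∧
    Indecomposable (subRep (tabRep F n μ) N hN) ∧ Iso ρ (subRep (tabRep F n μ) N hN)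

/-- `ρ` is a (finite) direct sum of Young modules. -/
def SumOfYoung {F : Type u} [Field F] {n : ℕ} {V : Type v} [AddCommGroup V] [Module F V]
    (ρ : Representation F (Perm (Fin n)) V) : Prop :=
  ∃ (k : ℕ) (N : Fin k → Submodule F V) (hN : ∀ i, Stable ρ (N i)),
    (∀ i, ∃ μ : YoungDiagram, IsYoung (subRep ρ (N i) (hN i)) μ) ∧
    ∀ x : V, ∃! y : (i : Fin k) → N i, x = ∑ i, (y i : V)

end Young

/-! ## The composition `(2, 1, …, 1)` -/

/-- The composition `(2, 1, …, 1)` of `n`. -/
def hookComp (n : ℕ) (h : 2 ≤ n) : Composition n where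
  blocks := 2 :: List.replicate (n - 2) 1
  blocks_pos := by
    intro i hi
    rcases List.mem_cons.1 hi with rfl | hi
    · norm_num
    · rw [List.eq_of_mem_replicate hi]; norm_num
  blocks_sum := by simp; omega

/-! ## Permutation modules in characteristic two: no Jordan block of size three for an element
of order dividing four -/

section PermProp

variable {F : Type u} [Field F] [CharP F 2] {G : Type} [Group G]

/-- The property that distinguishes: for `g` with `g⁴ = 1`, every `x` killed by the norm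
`1 + g + g² + g³` has `(1 + g²) x` in the image of the norm. -/
def Good {V : Type v} [AddCommGroup V] [Module F V] (ρ : Representation F G V) (g : G) : Prop :=
  ∀ x : V, x + ρ g x + ρ (g ^ 2) x + ρ (g ^ 3) x = 0 →
    ∃ z : V, x + ρ (g ^ 2) x = z + ρ g z + ρ (g ^ 2) z + ρ (g ^ 3) z

omit [CharP F 2] in
lemma four_min {a0 a1 a2 a3 : ℕ} (h01 : a0 ≠ a1) (h02 : a0 ≠ a2) (h03 : a0 ≠ a3) (h12 : a1 ≠ a2)
    (h13 : a1 ≠ a3) (h23 : a2 ≠ a3) (Y : F) :
    (if a0 < a1 ∧ a0 < a2 ∧ a0 < a3 then Y else 0) + (if a1 < a0 ∧ a1 < a2 ∧ a1 < a3 then Y else 0)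
      + (if a2 < a0 ∧ a2 < a1 ∧ a2 < a3 then Y else 0)
      + (if a3 < a0 ∧ a3 < a1 ∧ a3 < a2 then Y else 0) = Y := by
  rcases lt_or_gt_of_ne h01 with h | h <;> rcases lt_or_gt_of_ne h02 with h' | h' <;>
  rcases lt_or_gt_of_ne h03 with h'' | h'' <;> rcases lt_or_gt_of_ne h12 with k | k <;>
  rcases lt_or_gt_of_ne h13 with k' | k' <;> rcases lt_or_gt_of_ne h23 with k'' | k'' <;>
  first
  | (exfalso; omega)
  | (simp [h, h', h'', k, k', k'', not_lt.2 h.le, not_lt.2 h'.le, not_lt.2 h''.le,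
      not_lt.2 k.le, not_lt.2 k'.le, not_lt.2 k''.le])

lemma two_eq_zero' : (2 : F) = 0 := by
  have := CharP.cast_eq_zero F 2
  simpa using this

lemma add_self' (x : F) : x + x = 0 := by
  have h := two_eq_zero' (F := F)
  linear_combination x * h

lemma good_perm (Ω : Type) [Finite Ω] [MulAction G Ω] (g : G) (hg : g ^ 4 = 1) :
    Good (permRep F (G := G) Ω) g := by
  classical
  intro x hx
  obtain ⟨k, ⟨e⟩⟩ := Finite.exists_equiv_fin Ω
  set num : Ω → ℕ := fun ω => (e ω).val with hnum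
  have hinj : ∀ a b : Ω, num a = num b → a = b := fun a b h => e.injective (Fin.ext h)
  have hcoef : ∀ ω, x ω + x (g⁻¹ • ω) + x (g⁻¹ • g⁻¹ • ω) + x (g⁻¹ • g⁻¹ • g⁻¹ • ω) = 0 := by
    intro ω
    have := congrFun hx ω
    have e2 : (g ^ 2)⁻¹ • ω = g⁻¹ • g⁻¹ • ω := by rw [smul_smul]; congr 1; group
    have e3 : (g ^ 3)⁻¹ • ω = g⁻¹ • g⁻¹ • g⁻¹ • ω := by rw [smul_smul, smul_smul]; congr 1; group
    have h' : x ω + x (g⁻¹ • ω) + x ((g ^ 2)⁻¹ • ω) + x ((g ^ 3)⁻¹ • ω) = 0 := this
    rwa [e2, e3] at h'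
  have h4 : ∀ ω : Ω, g⁻¹ • g⁻¹ • g⁻¹ • g⁻¹ • ω = ω := by
    intro ω
    rw [smul_smul, smul_smul, smul_smul]
    have : g⁻¹ * g⁻¹ * g⁻¹ * g⁻¹ = 1 := by
      have : g⁻¹ * g⁻¹ * g⁻¹ * g⁻¹ = (g ^ 4)⁻¹ := by group
      rw [this, hg, inv_one]
    rw [this, one_smul]
  set y : Ω → F := fun ω => x ω + x (g⁻¹ • g⁻¹ • ω) with hy
  set z : Ω → F := fun ω => if num ω < num (g⁻¹ • ω) ∧ num ω < num (g⁻¹ • g⁻¹ • ω) ∧
    num ω < num (g⁻¹ • g⁻¹ • g⁻¹ • ω) then y ω else 0 with hz
  refine ⟨z, ?_⟩
  funext ω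
  have e2 : (g ^ 2)⁻¹ • ω = g⁻¹ • g⁻¹ • ω := by rw [smul_smul]; congr 1; group
  have e3 : (g ^ 3)⁻¹ • ω = g⁻¹ • g⁻¹ • g⁻¹ • ω := by rw [smul_smul, smul_smul]; congr 1; group
  change x ω + x ((g ^ 2)⁻¹ • ω) = z ω + z (g⁻¹ • ω) + z ((g ^ 2)⁻¹ • ω) + z ((g ^ 3)⁻¹ • ω)
  rw [e2, e3]
  obtain ⟨a0, ha0⟩ : ∃ a, a = ω := ⟨_, rfl⟩
  obtain ⟨a1, ha1⟩ : ∃ a, a = g⁻¹ • ω := ⟨_, rfl⟩
  obtain ⟨a2, ha2⟩ : ∃ a, a = g⁻¹ • g⁻¹ • ω := ⟨_, rfl⟩
  obtain ⟨a3, ha3⟩ : ∃ a, a = g⁻¹ • g⁻¹ • g⁻¹ • ω := ⟨_, rfl⟩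
  have s0 : g⁻¹ • a0 = a1 := by rw [ha0, ha1]
  have s1 : g⁻¹ • a1 = a2 := by rw [ha1, ha2]
  have s2 : g⁻¹ • a2 = a3 := by rw [ha2, ha3]
  have s3 : g⁻¹ • a3 = a0 := by rw [ha3, ha0, h4]
  have inj : ∀ a b : Ω, g⁻¹ • a = g⁻¹ • b → a = b := fun a b h => smul_left_cancel _ h
  rw [← ha3, ← ha2, ← ha1, ← ha0]
  have y0 : y a0 = x a0 + x a2 := by simp only [hy, s0, s1]
  have y1 : y a1 = x a1 + x a3 := by simp only [hy, s1, s2]
  have y2 : y a2 = x a2 + x a0 := by simp only [hy, s2, s3]
  have y3 : y a3 = x a3 + x a1 := by simp only [hy, s3, s0]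
  have hc : x a0 + x a1 + x a2 + x a3 = 0 := by
    have := hcoef a0
    rwa [s0, s1, s2] at this
  have h2 := two_eq_zero' (F := F)
  have z0 : z a0 = if num a0 < num a1 ∧ num a0 < num a2 ∧ num a0 < num a3 then y a0 else 0 := by
    simp only [hz, s0, s1, s2]
  have z1 : z a1 = if num a1 < num a2 ∧ num a1 < num a3 ∧ num a1 < num a0 then y a1 else 0 := by
    simp only [hz, s1, s2, s3]
  have z2 : z a2 = if num a2 < num a3 ∧ num a2 < num a0 ∧ num a2 < num a1 then y a2 else 0 := by
    simp only [hz, s2, s3, s0]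
  have z3 : z a3 = if num a3 < num a0 ∧ num a3 < num a1 ∧ num a3 < num a2 then y a3 else 0 := by
    simp only [hz, s3, s0, s1]
  have ey1 : y a1 = y a0 := by rw [y0, y1]; linear_combination hc - (x a0 + x a2) * h2
  have ey2 : y a2 = y a0 := by rw [y0, y2]; ring
  have ey3 : y a3 = y a0 := by rw [y0, y3]; linear_combination hc - (x a0 + x a2) * h2
  rw [ey1] at z1
  rw [ey2] at z2
  rw [ey3] at z3
  by_cases hd : a2 = a0
  · have hd' : a3 = a1 := by rw [← s2, hd, s0]
    have c0 : z a0 = 0 := by rw [z0, if_neg]; rintro ⟨_, h, _⟩; rw [hd] at h; exact lt_irrefl _ h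
    have c1 : z a1 = 0 := by rw [z1, if_neg]; rintro ⟨_, h, _⟩; rw [hd'] at h; exact lt_irrefl _ h
    rw [hd', hd, c0, c1]
    linear_combination x a0 * h2
  · have d02 : num a0 ≠ num a2 := fun h => hd (hinj _ _ h).symm
    have n01 : a0 ≠ a1 := by
      intro h
      apply hd
      rw [← s1, ← h, s0, h]
    have d01 : num a0 ≠ num a1 := fun h => n01 (hinj _ _ h)
    have n12 : a1 ≠ a2 := by
      intro h
      exact n01 (inj _ _ (by rw [s0, s1]; exact h))
    have d12 : num a1 ≠ num a2 := fun h => n12 (hinj _ _ h)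
    have n23 : a2 ≠ a3 := by
      intro h
      exact n12 (inj _ _ (by rw [s1, s2]; exact h))
    have d23 : num a2 ≠ num a3 := fun h => n23 (hinj _ _ h)
    have n30 : a3 ≠ a0 := by
      intro h
      exact n23 (inj _ _ (by rw [s2, s3]; exact h))
    have d03 : num a0 ≠ num a3 := fun h => n30 (hinj _ _ h).symm
    have n13 : a1 ≠ a3 := by
      intro h
      exact hd (inj _ _ (by rw [s2, s0]; exact h.symm))
    have d13 : num a1 ≠ num a3 := fun h => n13 (hinj _ _ h)
    have key := four_min (F := F) d01 d02 d03 d12 d13 d23 (y a0)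
    rw [z0, z1, z2, z3, ← y0]
    refine key.symm.trans ?_
    have t1 : (num a1 < num a2 ∧ num a1 < num a3 ∧ num a1 < num a0) ↔
      (num a1 < num a0 ∧ num a1 < num a2 ∧ num a1 < num a3) := by tauto
    have t2 : (num a2 < num a3 ∧ num a2 < num a0 ∧ num a2 < num a1) ↔
      (num a2 < num a0 ∧ num a2 < num a1 ∧ num a2 < num a3) := by tauto
    simp only [t1, t2]

omit [CharP F 2] in
lemma Good.of_summand {V : Type v} [AddCommGroup V] [Module F V] {W : Type w} [AddCommGroup W]
    [Module F W] {ρ : Representation F G V} {σ : Representation F G W} {g : G}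
    (h : Good σ g) (hs : IsSummand ρ σ) : Good ρ g := by
  obtain ⟨i, r, hi, hr, hir⟩ := hs
  intro x hx
  obtain ⟨z, hz⟩ := h (i x) (by
    rw [← hi, ← hi, ← hi, ← map_add, ← map_add, ← map_add, hx, map_zero])
  refine ⟨r z, ?_⟩
  rw [← hr, ← hr, ← hr, ← map_add, ← map_add, ← map_add, ← hz, ← hi, ← map_add, hir]

omit [CharP F 2] in
lemma Good.of_compl {W : Type w} [AddCommGroup W]
    [Module F W] {σ : Representation F G W} {g : G}
    (h : Good σ g) (N N' : Submodule F W) (hN : Stable σ N) (hN' : Stable σ N')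
    (hc : IsCompl N N') : Good (subRep σ N hN) g := by
  intro x hx
  have hx' : (x : W) + σ g x + σ (g ^ 2) x + σ (g ^ 3) x = 0 := congrArg Subtype.val hx
  obtain ⟨z, hz⟩ := h (x : W) hx'
  obtain ⟨z1, hz1, z2, hz2, hzz⟩ := Submodule.mem_sup.1
    (show z ∈ N ⊔ N' by rw [hc.sup_eq_top]; trivial)
  refine ⟨⟨z1, hz1⟩, ?_⟩
  apply Subtype.ext
  change (x : W) + σ (g ^ 2) x = z1 + σ g z1 + σ (g ^ 2) z1 + σ (g ^ 3) z1
  have m1 : (x : W) + σ (g ^ 2) x - (z1 + σ g z1 + σ (g ^ 2) z1 + σ (g ^ 3) z1) ∈ N := by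
    refine N.sub_mem (N.add_mem x.2 (hN _ _ x.2)) ?_
    exact N.add_mem (N.add_mem (N.add_mem hz1 (hN _ _ hz1)) (hN _ _ hz1)) (hN _ _ hz1)
  have m2 : (x : W) + σ (g ^ 2) x - (z1 + σ g z1 + σ (g ^ 2) z1 + σ (g ^ 3) z1) ∈ N' := by
    have : (x : W) + σ (g ^ 2) x - (z1 + σ g z1 + σ (g ^ 2) z1 + σ (g ^ 3) z1)
        = z2 + σ g z2 + σ (g ^ 2) z2 + σ (g ^ 3) z2 := by
      rw [hz, ← hzz]
      simp only [map_add]
      abel
    rw [this]
    exact N'.add_mem (N'.add_mem (N'.add_mem hz2 (hN' _ _ hz2)) (hN' _ _ hz2)) (hN' _ _ hz2)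
  have := Submodule.disjoint_def.1 hc.disjoint _ m1 m2
  exact sub_eq_zero.1 this

omit [CharP F 2] in
lemma Good.of_iso {V : Type v} [AddCommGroup V] [Module F V] {W : Type w} [AddCommGroup W]
    [Module F W] {ρ : Representation F G V} {σ : Representation F G W} {g : G}
    (h : Good σ g) (hs : Iso ρ σ) : Good ρ g := by
  obtain ⟨e, he0⟩ := hs
  have he : ∀ g x, e (ρ g x) = σ g (e x) := fun g x => he0 g x
  refine h.of_summand ⟨e.toLinearMap, e.symm.toLinearMap, he, ?_, fun x => e.symm_apply_apply x⟩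
  intro g y
  apply e.injective
  change e (e.symm (σ g y)) = e (ρ g (e.symm y))
  rw [he, e.apply_symm_apply, e.apply_symm_apply]

lemma good_of_trivialSource {V : Type v} [AddCommGroup V] [Module F V]
    {ρ : Representation F G V} (h : TrivialSource ρ) (g : G) (hg : g ^ 4 = 1) : Good ρ g := by
  obtain ⟨Ω, h1, h2, h3⟩ := h
  exact (good_perm Ω g hg).of_summand h3

end PermProp

section YoungProp

variable {F : Type u} [Field F] [CharP F 2] {n : ℕ}

instance (μ : YoungDiagram) : Finite (Tabloid n μ) := by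
  classical
  have : Function.Surjective (tabloidOf : (Fin n ≃ μ.cells) → Tabloid n μ) := by
    rintro ⟨f, t, ht⟩
    exact ⟨t, Subtype.ext (funext fun x => (ht x).symm)⟩
  exact Finite.of_surjective _ this

lemma good_of_isYoung {V : Type v} [AddCommGroup V] [Module F V]
    {ρ : Representation F (Perm (Fin n)) V} {μ : YoungDiagram} (h : IsYoung ρ μ)
    (g : Perm (Fin n)) (hg : g ^ 4 = 1) : Good ρ g := by
  obtain ⟨N, hN, -, ⟨N', hN', hc⟩, -, -, hi⟩ := h
  exact ((good_perm _ g hg).of_compl N N' hN hN' hc).of_iso hi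

lemma good_of_sumOfYoung {V : Type v} [AddCommGroup V] [Module F V]
    {ρ : Representation F (Perm (Fin n)) V} (h : SumOfYoung ρ)
    (g : Perm (Fin n)) (hg : g ^ 4 = 1) : Good ρ g := by
  obtain ⟨k, N, hN, hY, hu⟩ := h
  have hG : ∀ i, Good (subRep ρ (N i) (hN i)) g := fun i => by
    obtain ⟨μ, hμ⟩ := hY i
    exact good_of_isYoung hμ g hg
  intro x hx
  obtain ⟨y, hy, -⟩ := hu x
  have h0 : ∀ i, y i + subRep ρ (N i) (hN i) g (y i) + subRep ρ (N i) (hN i) (g ^ 2) (y i)
      + subRep ρ (N i) (hN i) (g ^ 3) (y i) = 0 := by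
    obtain ⟨w, hw, hw'⟩ := hu 0
    have e1 := hw' (fun i => y i + subRep ρ (N i) (hN i) g (y i)
      + subRep ρ (N i) (hN i) (g ^ 2) (y i) + subRep ρ (N i) (hN i) (g ^ 3) (y i)) (by
        change 0 = ∑ i, ((y i : V) + ρ g (y i) + ρ (g ^ 2) (y i) + ρ (g ^ 3) (y i))
        rw [Finset.sum_add_distrib, Finset.sum_add_distrib, Finset.sum_add_distrib, ← map_sum,
          ← map_sum, ← map_sum, ← hy, hx])
    have e2 := hw' (fun i => 0) (by simp)
    intro i
    exact (congrFun e1 i).trans (congrFun e2 i).symm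
  choose z hz using fun i => hG i (y i) (h0 i)
  refine ⟨∑ i, (z i : V), ?_⟩
  have hz' : ∀ i, (y i : V) + ρ (g ^ 2) (y i)
      = (z i : V) + ρ g (z i) + ρ (g ^ 2) (z i) + ρ (g ^ 3) (z i) :=
    fun i => congrArg Subtype.val (hz i)
  rw [hy, map_sum, map_sum, map_sum, map_sum, ← Finset.sum_add_distrib, ← Finset.sum_add_distrib,
    ← Finset.sum_add_distrib, ← Finset.sum_add_distrib]
  exact Finset.sum_congr rfl fun i _ => hz' i

end YoungProp

/-! ## Coefficients for the composition `(2, 1, …, 1)` -/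

section Hook

variable {F : Type u} [Field F] {m : ℕ}

/-- The composition `(2, 1, …, 1)` of `4 + m`. -/
abbrev q4 (m : ℕ) : Composition (4 + m) := hookComp (4 + m) (by omega)

/-- A small point. -/
abbrev sm (m : ℕ) (a : Fin 4) : Fin (4 + m) := Fin.castAdd m a

lemma desIn_hook (σ : Perm (Fin (4 + m))) : DesIn (q4 m) σ ↔ σ (sm m 0) < σ (sm m 1) := by
  constructor
  · intro h
    by_contra hlt
    have hne : σ (sm m 0) ≠ σ (sm m 1) := fun h => by
      have := σ.injective h
      have h2 := congrArg Fin.val this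
      simp at h2
    have h1 : σ (sm m 1) < σ (sm m 0) := lt_of_le_of_ne (not_lt.1 hlt) hne.symm
    obtain ⟨j, hj, -, hs⟩ := h 0 (by omega) h1
    obtain ⟨j, rfl⟩ : ∃ k, j = k + 1 := ⟨j - 1, by omega⟩
    simp [Composition.sizeUpTo, hookComp, List.take_succ_cons] at hs
    omega
  · intro h i hi hlt
    rcases Nat.eq_zero_or_pos i with rfl | hi0
    · exact absurd h (not_lt.2 hlt.le)
    · obtain ⟨k, rfl⟩ : ∃ k, i = k + 1 := ⟨i - 1, by omega⟩
      refine ⟨k + 1, by omega, ?_, ?_⟩
      · simp [Composition.length, hookComp]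
        omega
      · simp [Composition.sizeUpTo, hookComp, List.take_succ_cons, List.take_replicate]
        omega

/-- The coefficient of `g Ξ` at a permutation whose first two values are `a`, `b`. -/
def cf (F : Type u) [Field F] (g : Perm (Fin (4 + m))) (a b : Fin (4 + m)) : F :=
  if g⁻¹ a < g⁻¹ b then 1 else 0

lemma coeff_Xi (g σ : Perm (Fin (4 + m))) :
    (MonoidAlgebra.single g (1 : F) * Xi F (q4 m)).coeff σ = cf F g (σ (sm m 0)) (σ (sm m 1)) := by
  classical
  rw [MonoidAlgebra.coeff_single_mul_apply, one_mul]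
  unfold Xi
  rw [MonoidAlgebra.coeff_sum, Finsupp.finsetSum_apply]
  simp only [MonoidAlgebra.coeff_single, Finsupp.single_apply]
  rw [Finset.sum_ite_eq']
  simp only [Finset.mem_filter, Finset.mem_univ, true_and, desIn_hook]
  rfl

/-- Permutations of the first four points, acting on all points. -/
def emb (m : ℕ) (τ : Perm (Fin 4)) : Perm (Fin (4 + m)) :=
  (finSumFinEquiv.symm.trans (Equiv.sumCongr τ (Equiv.refl (Fin m)))).trans finSumFinEquiv

lemma emb_cast (τ : Perm (Fin 4)) (a : Fin 4) : emb m τ (sm m a) = sm m (τ a) := by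
  simp [emb]

lemma emb_nat (τ : Perm (Fin 4)) (b : Fin m) : emb m τ (Fin.natAdd 4 b) = Fin.natAdd 4 b := by
  simp [emb]

lemma emb_mul (τ τ' : Perm (Fin 4)) : emb m (τ * τ') = emb m τ * emb m τ' := by
  ext x
  refine Fin.addCases (fun a => ?_) (fun b => ?_) x
  · rw [Perm.mul_apply]; erw [emb_cast, emb_cast, emb_cast]; rfl
  · rw [Perm.mul_apply, emb_nat, emb_nat, emb_nat]

lemma emb_one : emb m 1 = 1 := by
  ext x
  refine Fin.addCases (fun a => ?_) (fun b => ?_) x
  · erw [emb_cast]; rfl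
  · rw [emb_nat]; rfl

lemma emb_inv (τ : Perm (Fin 4)) : (emb m τ)⁻¹ = emb m τ⁻¹ := by
  rw [inv_eq_iff_mul_eq_one, ← emb_mul, mul_inv_cancel, emb_one]

lemma emb_pow (τ : Perm (Fin 4)) (k : ℕ) : emb m τ ^ k = emb m (τ ^ k) := by
  induction k with
  | zero => simp [emb_one]
  | succ k ih => rw [pow_succ, pow_succ, ih, emb_mul]

lemma cf_ss (τ : Perm (Fin 4)) (a b : Fin 4) :
    cf F (emb m τ) (sm m a) (sm m b) = if τ⁻¹ a < τ⁻¹ b then 1 else 0 := by
  unfold cf
  rw [emb_inv, emb_cast, emb_cast]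
  exact if_congr Iff.rfl rfl rfl

lemma cf_sb (τ : Perm (Fin 4)) (a : Fin 4) (b : Fin m) :
    cf F (emb m τ) (sm m a) (Fin.natAdd 4 b) = 1 := by
  unfold cf
  rw [emb_inv, emb_cast, emb_nat]
  refine if_pos ?_
  have h := (τ⁻¹ a).isLt
  change (τ⁻¹ a).val < 4 + b.val
  omega

lemma cf_bs (τ : Perm (Fin 4)) (a : Fin 4) (b : Fin m) :
    cf F (emb m τ) (Fin.natAdd 4 b) (sm m a) = 0 := by
  unfold cf
  rw [emb_inv, emb_cast, emb_nat]
  refine if_neg ?_
  have h := (τ⁻¹ a).isLt
  change ¬ (4 + b.val < (τ⁻¹ a).val)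
  omega

lemma cf_bb (τ : Perm (Fin 4)) (a b : Fin m) :
    cf F (emb m τ) (Fin.natAdd 4 a) (Fin.natAdd 4 b)
      = if Fin.natAdd 4 a < Fin.natAdd 4 b then 1 else 0 := by
  unfold cf
  rw [emb_inv, emb_nat, emb_nat]

/-- Sum of coefficients over a list of permutations of the first four points. -/
lemma list_sum [CharP F 2] (L : List (Perm (Fin 4))) (hL : Even L.length)
    (Q : Fin 4 → Fin 4 → Prop)
    [∀ a b, Decidable (Q a b)]
    (h : ∀ a b : Fin 4, a ≠ b → ((L.countP fun τ => decide (τ⁻¹ a < τ⁻¹ b)) % 2 = if Q a b then 1 else 0))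
    (R : Fin (4 + m) → Fin (4 + m) → F)
    (h1 : ∀ a b : Fin 4, a ≠ b → R (sm m a) (sm m b) = if Q a b then 1 else 0)
    (h2 : ∀ (a : Fin 4) (b : Fin m), R (sm m a) (Fin.natAdd 4 b) = 0)
    (h3 : ∀ (a : Fin 4) (b : Fin m), R (Fin.natAdd 4 b) (sm m a) = 0)
    (h4 : ∀ (a b : Fin m), R (Fin.natAdd 4 a) (Fin.natAdd 4 b) = 0)
    (a b : Fin (4 + m)) (hab : a ≠ b) :
    (L.map fun τ => cf F (emb m τ) a b).sum = R a b := by
  have cast_mod : ∀ k : ℕ, (k : F) = ((k % 2 : ℕ) : F) := by
    intro k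
    have := CharP.cast_eq_mod F 2 k
    exact this
  have key : ∀ (L : List (Perm (Fin 4))) (p : Perm (Fin 4) → Bool) (f : Perm (Fin 4) → F),
      (∀ τ, f τ = if p τ = true then 1 else 0) → (L.map f).sum = (L.countP p : F) := by
    intro L p f hf
    induction L with
    | nil => simp
    | cons τ L ih =>
      rw [List.map_cons, List.sum_cons, ih, List.countP_cons, hf]
      by_cases hp : p τ = true <;> simp [hp, add_comm]
  revert hab
  refine Fin.addCases (fun a => ?_) (fun a => ?_) a <;>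
  refine Fin.addCases (fun b => ?_) (fun b => ?_) b <;> intro hab
  · have hab' : a ≠ b := fun h => hab (by rw [h])
    erw [h1 a b hab']
    rw [key L (fun τ => decide (τ⁻¹ a < τ⁻¹ b)) _ (fun τ => by
      erw [cf_ss τ a b]
      simp only [decide_eq_true_eq])]
    rw [cast_mod, h a b hab']
    split_ifs <;> simp
  · erw [h2 a b]
    rw [key L (fun _ => true) _ (fun τ => by
      erw [cf_sb τ a b]
      simp)]
    rw [List.countP_true, cast_mod, Nat.even_iff.1 hL]; simp
  · erw [h3 b a]
    rw [key L (fun _ => false) _ (fun τ => by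
      erw [cf_bs τ b a]
      simp)]
    simp
  · erw [h4 a b]
    by_cases hlt : Fin.natAdd 4 a < Fin.natAdd 4 b
    · rw [key L (fun _ => true) _ (fun τ => by
        rw [cf_bb τ a b, if_pos hlt]; rfl)]
      rw [List.countP_true, cast_mod, Nat.even_iff.1 hL]; simp
    · rw [key L (fun _ => false) _ (fun τ => by
        rw [cf_bb τ a b, if_neg hlt]; rfl)]
      simp

end Hook

/-! ## Not a trivial source module, not a sum of Young modules -/

section NotGood

variable {F : Type u} [Field F] {m : ℕ}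

/-- The element `g Ξ` of `X^q`. -/
noncomputable def vX (F : Type u) [Field F] (g : Perm (Fin (4 + m))) :
    X F (q4 m) :=
  ⟨MonoidAlgebra.single g 1 * Xi F (q4 m),
    Ideal.mul_mem_left _ _ (Ideal.subset_span rfl)⟩

lemma rho_vX (g h : Perm (Fin (4 + m))) :
    descentRep F (q4 m) g (vX F h) = vX F (g * h) := by
  apply Subtype.ext
  change MonoidAlgebra.single g 1 * (MonoidAlgebra.single h 1 * Xi F (q4 m))
    = MonoidAlgebra.single (g * h) 1 * Xi F (q4 m)
  rw [← mul_assoc, MonoidAlgebra.single_mul_single, one_mul]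

/-- Coefficient functional. -/
noncomputable def co (σ : Perm (Fin (4 + m))) :
    (X F (q4 m)) →ₗ[F] F where
  toFun z := (z : MonoidAlgebra F (Perm (Fin (4 + m)))).coeff σ
  map_add' x y := by simp
  map_smul' c x := by simp

lemma co_vX (g σ : Perm (Fin (4 + m))) : co σ (vX F g) = cf F g (σ (sm m 0)) (σ (sm m 1)) :=
  coeff_Xi g σ

lemma X_ext {z z' : X F (q4 m)} (h : ∀ σ, co σ z = co σ z') : z = z' := by
  apply Subtype.ext
  apply MonoidAlgebra.ext
  ext σ
  exact h σ

lemma X_ind (f : (X F (q4 m)) →ₗ[F] F) (h : ∀ g, f (vX F g) = 0) :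
    ∀ z, f z = 0 := by
  rintro ⟨z, hz⟩
  obtain ⟨a, rfl⟩ := Ideal.mem_span_singleton'.1 hz
  have hm : ∀ a : MonoidAlgebra F (Perm (Fin (4 + m))),
      a * Xi F (q4 m) ∈ X F (q4 m) := fun a =>
    Ideal.mul_mem_left _ _ (Ideal.subset_span rfl)
  suffices H : ∀ a, f ⟨a * Xi F (q4 m), hm a⟩ = 0 from H a
  intro a
  induction a using MonoidAlgebra.induction_linear with
  | zero =>
    have : (⟨0 * Xi F (q4 m), hm 0⟩ : X F (q4 m)) = 0 :=
      Subtype.ext (zero_mul _)
    rw [this, map_zero]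
  | add a b ha hb =>
    have : (⟨(a + b) * Xi F (q4 m), hm _⟩ : X F (q4 m))
        = ⟨a * Xi F (q4 m), hm _⟩ + ⟨b * Xi F (q4 m), hm _⟩ := Subtype.ext (add_mul _ _ _)
    rw [this, map_add, ha, hb, add_zero]
  | single g c =>
    have : (⟨MonoidAlgebra.single g c * Xi F (q4 m), hm _⟩ : X F (q4 m))
        = c • vX F g := by
      apply Subtype.ext
      change MonoidAlgebra.single g c * Xi F (q4 m)
        = c • (MonoidAlgebra.single g 1 * Xi F (q4 m))
      rw [← smul_mul_assoc, MonoidAlgebra.smul_single, smul_eq_mul, mul_one]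
    rw [this, map_smul, h, smul_zero]

lemma cf_mul (h g : Perm (Fin (4 + m))) (a b : Fin (4 + m)) :
    cf F (h * g) a b = cf F g (h⁻¹ a) (h⁻¹ b) := by
  unfold cf
  rw [mul_inv_rev]
  rfl

lemma cf_swap (g : Perm (Fin (4 + m))) {a b : Fin (4 + m)} (h : a ≠ b) :
    cf F g a b + cf F g b a = 1 := by
  unfold cf
  have hne : g⁻¹ a ≠ g⁻¹ b := fun h' => h (g⁻¹.injective h')
  rcases lt_or_gt_of_ne hne with h' | h'
  · rw [if_pos h', if_neg (not_lt.2 h'.le), add_zero]
  · rw [if_neg (not_lt.2 h'.le), if_pos h', zero_add]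

lemma sm_ne {a b : Fin 4} (h : a ≠ b) : sm m a ≠ sm m b := fun h' =>
  h (Fin.castAdd_injective 4 m h')

lemma not_good [CharP F 2] : ¬ Good (descentRep F (q4 m)) (emb m (finRotate 4)) := by
  intro hG
  set c := emb m (finRotate 4) with hc
  have h2 := two_eq_zero' (F := F)
  have e1 : c * emb m (swap 2 3) = emb m (finRotate 4 * swap 2 3) := by rw [hc, ← emb_mul]
  have e2 : c ^ 2 * emb m (swap 2 3) = emb m (finRotate 4 ^ 2 * swap 2 3) := by
    rw [hc, emb_pow, ← emb_mul]
  have e3 : c ^ 3 * emb m (swap 2 3) = emb m (finRotate 4 ^ 3 * swap 2 3) := by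
    rw [hc, emb_pow, ← emb_mul]
  obtain ⟨z, hz⟩ := hG (vX F (emb m (swap 2 3))) (by
    apply X_ext
    intro σ
    rw [rho_vX, rho_vX, rho_vX, map_add, map_add, map_add, co_vX, co_vX, co_vX, co_vX, map_zero,
      e1, e2, e3]
    have hne : σ (sm m 0) ≠ σ (sm m 1) := fun h => sm_ne (m := m) (by decide) (σ.injective h)
    have := list_sum (F := F) (m := m)
      [swap 2 3, finRotate 4 * swap 2 3, finRotate 4 ^ 2 * swap 2 3, finRotate 4 ^ 3 * swap 2 3]
      (by decide) (fun _ _ => False) (by decide) (fun _ _ => 0) (by simp) (by simp) (by simp)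
      (by simp) (σ (sm m 0)) (σ (sm m 1)) hne
    simp only [List.map_cons, List.map_nil, List.sum_cons, List.sum_nil] at this
    linear_combination this)
  have h1 := congrArg (co (emb m (swap 1 2))) hz
  rw [rho_vX, map_add, co_vX, co_vX, e2] at h1
  have p0 : emb m (swap 1 2) (sm m 0) = sm m 0 := by rw [emb_cast]; rfl
  have p1 : emb m (swap 1 2) (sm m 1) = sm m 2 := by rw [emb_cast]; rfl
  rw [p0, p1] at h1
  have q0 := cf_ss (F := F) (m := m) (swap 2 3) 0 2
  have q1 := cf_ss (F := F) (m := m) (finRotate 4 ^ 2 * swap 2 3) 0 2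
  rw [if_pos (by decide)] at q0
  rw [if_neg (by decide)] at q1
  rw [q0, q1] at h1
  -- the right side vanishes
  have h0 : ∀ z, (co (emb m (swap 1 2)) ∘ₗ (LinearMap.id + descentRep F (q4 m) c
      + descentRep F (q4 m) (c ^ 2) + descentRep F (q4 m) (c ^ 3))) z = 0 := by
    apply X_ind
    intro g
    change co (emb m (swap 1 2)) (vX F g + descentRep F (q4 m) c (vX F g)
      + descentRep F (q4 m) (c ^ 2) (vX F g) + descentRep F (q4 m) (c ^ 3) (vX F g)) = 0
    rw [rho_vX, rho_vX, rho_vX, map_add, map_add, map_add, co_vX, co_vX, co_vX, co_vX, p0, p1,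
      cf_mul, cf_mul, cf_mul, hc, emb_pow, emb_pow, emb_inv, emb_inv, emb_inv, emb_cast, emb_cast,
      emb_cast, emb_cast, emb_cast, emb_cast]
    have r0 : (finRotate 4)⁻¹ 0 = 3 := by decide
    have r1 : (finRotate 4)⁻¹ 2 = 1 := by decide
    have r2 : (finRotate 4 ^ 2)⁻¹ 0 = 2 := by decide
    have r3 : (finRotate 4 ^ 2)⁻¹ 2 = 0 := by decide
    have r4 : (finRotate 4 ^ 3)⁻¹ 0 = 1 := by decide
    have r5 : (finRotate 4 ^ 3)⁻¹ 2 = 3 := by decide
    rw [r0, r1, r2, r3, r4, r5]
    have s1 := cf_swap (F := F) g (sm_ne (m := m) (show (0 : Fin 4) ≠ 2 by decide))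
    have s2 := cf_swap (F := F) g (sm_ne (m := m) (show (3 : Fin 4) ≠ 1 by decide))
    linear_combination s1 + s2 + h2
  have h3 := h0 z
  change co (emb m (swap 1 2)) (z + descentRep F (q4 m) c z
      + descentRep F (q4 m) (c ^ 2) z + descentRep F (q4 m) (c ^ 3) z) = 0 at h3
  rw [h3] at h1
  simp at h1

lemma rot_pow : (emb m (finRotate 4)) ^ 4 = 1 := by
  rw [emb_pow]
  have : (finRotate 4) ^ 4 = 1 := by decide
  rw [this, emb_one]

end NotGood

/-! ## Not self-dual -/

section NotSelfDual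

variable {F : Type u} [Field F] [CharP F 2] {m : ℕ}

lemma not_selfDual : ¬ SelfDual (descentRep F (q4 m)) := by
  rintro ⟨e, he0⟩
  have he : ∀ g x, e (descentRep F (q4 m) g x) = (descentRep F (q4 m)).dual g (e x) :=
    fun g x => he0 g x
  have h2 := two_eq_zero' (F := F)
  set ρ := descentRep F (q4 m) with hρ
  have hB : ∀ (g : Perm (Fin (4 + m))) (x y : X F (q4 m)),
      e (ρ g x) y = e x (ρ g⁻¹ y) := by
    intro g x y
    rw [he]
    rfl
  set r := emb m (swap 0 1) with hr
  set s := emb m (swap 0 2) with hs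
  set t := emb m (swap 1 3) with ht
  set r' := emb m (swap 2 3) with hr'
  have sq : ∀ τ : Perm (Fin 4), τ * τ = 1 → (emb m τ)⁻¹ = emb m τ := by
    intro τ h
    rw [inv_eq_iff_mul_eq_one, ← emb_mul, h, emb_one]
  have ir : r⁻¹ = r := sq _ (by decide)
  have is : s⁻¹ = s := sq _ (by decide)
  have it : t⁻¹ = t := sq _ (by decide)
  have ir' : r'⁻¹ = r' := sq _ (by decide)
  have hmul : ∀ (g h : Perm (Fin (4 + m))) x, ρ g (ρ h x) = ρ (g * h) x := by
    intro g h x
    rw [map_mul]
    rfl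
  set v := vX F (m := m) 1 with hv
  set W := v + ρ r v with hW
  set Y := W + ρ s W + ρ t W + ρ s (ρ t W) with hY
  -- (i)
  have f1 : ρ r W = W := by
    rw [hW, map_add, hmul]
    have : r * r = 1 := by rw [hr, ← emb_mul, show swap (0 : Fin 4) 1 * swap 0 1 = 1 by decide,
      emb_one]
    rw [this, map_one]
    change ρ r v + v = v + ρ r v
    exact add_comm _ _
  -- (ii)
  have f2 : ρ r' W = W := by
    apply X_ext
    intro σ
    have hne : σ (sm m 0) ≠ σ (sm m 1) := fun h => sm_ne (m := m) (by decide) (σ.injective h)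
    rw [hW, map_add, hmul, hv, rho_vX, rho_vX, rho_vX, map_add, map_add, co_vX, co_vX, co_vX,
      co_vX]
    have e1 : r' * 1 = emb m (swap 2 3) := by rw [mul_one]
    have e2 : r' * r * 1 = emb m (swap 2 3 * swap 0 1) := by rw [mul_one, emb_mul]
    have e3 : r * 1 = emb m (swap 0 1) := by rw [mul_one]
    have e4 : (1 : Perm (Fin (4 + m))) = emb m 1 := by rw [emb_one]
    rw [e1, e2, e3, e4]
    have := list_sum (F := F) (m := m)
      [swap 2 3, swap 2 3 * swap 0 1, 1, swap 0 1]
      (by decide) (fun _ _ => False) (by decide) (fun _ _ => 0) (by simp) (by simp) (by simp)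
      (by simp) (σ (sm m 0)) (σ (sm m 1)) hne
    simp only [List.map_cons, List.map_nil, List.sum_cons, List.sum_nil] at this
    linear_combination this - (cf F (emb m 1) (σ (sm m 0)) (σ (sm m 1))
      + cf F (emb m (swap 0 1)) (σ (sm m 0)) (σ (sm m 1))) * h2
  -- (iii)
  have hYsum : Y = vX F (emb m 1) + vX F (emb m (swap 0 1)) + (vX F (emb m (swap 0 2))
      + vX F (emb m (swap 0 2 * swap 0 1))) + (vX F (emb m (swap 1 3))
      + vX F (emb m (swap 1 3 * swap 0 1))) + (vX F (emb m (swap 0 2 * swap 1 3))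
      + vX F (emb m (swap 0 2 * swap 1 3 * swap 0 1))) := by
    rw [hY, hW, hv]
    simp only [map_add, hρ, rho_vX, mul_one, emb_mul, emb_one, mul_assoc]
    rfl
  have hYco : ∀ σ : Perm (Fin (4 + m)), co σ Y =
      if ((σ (sm m 0)).val < 4 ∧ (σ (sm m 1)).val < 4 ∧
        ((σ (sm m 0)).val + (σ (sm m 1)).val) % 2 = 1) then 1 else 0 := by
    intro σ
    have hne : σ (sm m 0) ≠ σ (sm m 1) := fun h => sm_ne (m := m) (by decide) (σ.injective h)
    rw [hYsum]
    simp only [map_add, co_vX]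
    have := list_sum (F := F) (m := m)
      [1, swap 0 1, swap 0 2, swap 0 2 * swap 0 1, swap 1 3, swap 1 3 * swap 0 1,
        swap 0 2 * swap 1 3, swap 0 2 * swap 1 3 * swap 0 1]
      (by decide) (fun a b => (a.val + b.val) % 2 = 1) (by decide)
      (fun a b => if (a.val < 4 ∧ b.val < 4 ∧ (a.val + b.val) % 2 = 1) then 1 else 0)
      (by
        intro a b _
        have h1 := a.isLt
        have h2 := b.isLt
        have e1 : (sm m a).val = a.val := rfl
        have e2 : (sm m b).val = b.val := rfl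
        rw [e1, e2]
        simp [h1, h2])
      (by intro a b; simp) (by intro a b; simp) (by intro a b; simp)
      (σ (sm m 0)) (σ (sm m 1)) hne
    simp only [List.map_cons, List.map_nil, List.sum_cons, List.sum_nil] at this
    linear_combination this
  have f3 : ∀ g : Perm (Fin (4 + m)),
      vX F g + vX F (s * g) + vX F (t * g) + vX F (t * s * g)
      = (cf F g (sm m 0) (sm m 1) + cf F g (sm m 2) (sm m 1) + cf F g (sm m 0) (sm m 3)
        + cf F g (sm m 2) (sm m 3)) • Y := by
    intro g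
    apply X_ext
    intro σ
    have hne : σ (sm m 0) ≠ σ (sm m 1) := fun h => sm_ne (m := m) (by decide) (σ.injective h)
    rw [map_smul, hYco, smul_eq_mul]
    simp only [map_add, co_vX, cf_mul, mul_inv_rev, Perm.mul_apply, is, it]
    revert hne
    generalize σ (sm m 0) = a
    generalize σ (sm m 1) = b
    have hsn : ∀ b : Fin m, s (Fin.natAdd 4 b) = Fin.natAdd 4 b := fun b => emb_nat _ b
    have htn : ∀ b : Fin m, t (Fin.natAdd 4 b) = Fin.natAdd 4 b := fun b => emb_nat _ b
    have s0 : s (sm m 0) = sm m 2 := by rw [hs, emb_cast]; rfl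
    have s1 : s (sm m 1) = sm m 1 := by rw [hs, emb_cast]; rfl
    have s2 : s (sm m 2) = sm m 0 := by rw [hs, emb_cast]; rfl
    have s3 : s (sm m 3) = sm m 3 := by rw [hs, emb_cast]; rfl
    have t0 : t (sm m 0) = sm m 0 := by rw [ht, emb_cast]; rfl
    have t1 : t (sm m 1) = sm m 3 := by rw [ht, emb_cast]; rfl
    have t2 : t (sm m 2) = sm m 2 := by rw [ht, emb_cast]; rfl
    have t3 : t (sm m 3) = sm m 1 := by rw [ht, emb_cast]; rfl
    have c01 := cf_swap (F := F) g (sm_ne (m := m) (show (0 : Fin 4) ≠ 1 by decide))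
    have c02 := cf_swap (F := F) g (sm_ne (m := m) (show (0 : Fin 4) ≠ 2 by decide))
    have c03 := cf_swap (F := F) g (sm_ne (m := m) (show (0 : Fin 4) ≠ 3 by decide))
    have c12 := cf_swap (F := F) g (sm_ne (m := m) (show (1 : Fin 4) ≠ 2 by decide))
    have c13 := cf_swap (F := F) g (sm_ne (m := m) (show (1 : Fin 4) ≠ 3 by decide))
    have c23 := cf_swap (F := F) g (sm_ne (m := m) (show (2 : Fin 4) ≠ 3 by decide))
    have add2 : ∀ x : F, x + x = 0 := add_self'
    refine Fin.addCases (fun a => ?_) (fun a => ?_) a <;>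
    refine Fin.addCases (fun b => ?_) (fun b => ?_) b <;> intro hab
    · have hab' : a ≠ b := fun h => hab (by rw [h])
      have e1 : (Fin.castAdd m a).val = a.val := rfl
      have e2 : (Fin.castAdd m b).val = b.val := rfl
      rw [e1, e2]
      have hall : ∀ a : Fin 4, a = 0 ∨ a = 1 ∨ a = 2 ∨ a = 3 := by decide
      have ha := hall a
      have hb := hall b
      rcases ha with rfl | rfl | rfl | rfl <;> rcases hb with rfl | rfl | rfl | rfl
      · exact absurd rfl hab'
      · rw [if_pos (by decide), s0, s1, t0, t1, s0, s3]; ring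
      · rw [if_neg (by decide), s0, s2, t0, t2, s0, s2]; linear_combination 2 * c02 + h2
      · rw [if_pos (by decide), s0, s3, t0, t3, s0, s1]; ring
      · rw [if_pos (by decide), s1, s0, t1, t0, s3, s0]
        linear_combination c01 + c12 + c03 + c23 + (2 - (cf F g (sm m 0) (sm m 1)
          + cf F g (sm m 2) (sm m 1) + cf F g (sm m 0) (sm m 3)
          + cf F g (sm m 2) (sm m 3))) * h2
      · exact absurd rfl hab'
      · rw [if_pos (by decide), s1, s2, t1, t2, s3, s2]
        linear_combination c01 + c12 + c03 + c23 + (2 - (cf F g (sm m 0) (sm m 1)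
          + cf F g (sm m 2) (sm m 1) + cf F g (sm m 0) (sm m 3)
          + cf F g (sm m 2) (sm m 3))) * h2
      · rw [if_neg (by decide), s1, s3, t1, t3, s3, s1]; linear_combination 2 * c13 + h2
      · rw [if_neg (by decide), s2, s0, t2, t0, s2, s0]; linear_combination 2 * c02 + h2
      · rw [if_pos (by decide), s2, s1, t2, t1, s2, s3]; ring
      · exact absurd rfl hab'
      · rw [if_pos (by decide), s2, s3, t2, t3, s2, s1]; ring
      · rw [if_pos (by decide), s3, s0, t3, t0, s1, s0]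
        linear_combination c01 + c12 + c03 + c23 + (2 - (cf F g (sm m 0) (sm m 1)
          + cf F g (sm m 2) (sm m 1) + cf F g (sm m 0) (sm m 3)
          + cf F g (sm m 2) (sm m 3))) * h2
      · rw [if_neg (by decide), s3, s1, t3, t1, s1, s3]; linear_combination 2 * c13 + h2
      · rw [if_pos (by decide), s3, s2, t3, t2, s1, s2]
        linear_combination c01 + c12 + c03 + c23 + (2 - (cf F g (sm m 0) (sm m 1)
          + cf F g (sm m 2) (sm m 1) + cf F g (sm m 0) (sm m 3)
          + cf F g (sm m 2) (sm m 3))) * h2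
      · exact absurd rfl hab'
    · have hz : ¬ ((Fin.natAdd 4 b).val < 4) := by simp
      rw [if_neg (by tauto)]
      rw [hsn, htn, hsn]
      fin_cases a
      · change cf F g (sm m 0) _ + cf F g (s (sm m 0)) _ + cf F g (t (sm m 0)) _
          + cf F g (s (t (sm m 0))) _ = _
        rw [t0, s0]
        linear_combination add2 (cf F g (sm m 0) (Fin.natAdd 4 b)) + add2 (cf F g (sm m 2) (Fin.natAdd 4 b))
      · change cf F g (sm m 1) _ + cf F g (s (sm m 1)) _ + cf F g (t (sm m 1)) _
          + cf F g (s (t (sm m 1))) _ = _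
        rw [t1, s1, s3]
        linear_combination add2 (cf F g (sm m 1) (Fin.natAdd 4 b)) + add2 (cf F g (sm m 3) (Fin.natAdd 4 b))
      · change cf F g (sm m 2) _ + cf F g (s (sm m 2)) _ + cf F g (t (sm m 2)) _
          + cf F g (s (t (sm m 2))) _ = _
        rw [t2, s2]
        linear_combination add2 (cf F g (sm m 0) (Fin.natAdd 4 b)) + add2 (cf F g (sm m 2) (Fin.natAdd 4 b))
      · change cf F g (sm m 3) _ + cf F g (s (sm m 3)) _ + cf F g (t (sm m 3)) _
          + cf F g (s (t (sm m 3))) _ = _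
        rw [t3, s3, s1]
        linear_combination add2 (cf F g (sm m 1) (Fin.natAdd 4 b)) + add2 (cf F g (sm m 3) (Fin.natAdd 4 b))
    · have hz : ¬ ((Fin.natAdd 4 a).val < 4) := by simp
      rw [if_neg (by tauto)]
      rw [hsn, htn, hsn]
      fin_cases b
      · change cf F g _ (sm m 0) + cf F g _ (s (sm m 0)) + cf F g _ (t (sm m 0))
          + cf F g _ (s (t (sm m 0))) = _
        rw [t0, s0]
        linear_combination add2 (cf F g (Fin.natAdd 4 a) (sm m 0)) + add2 (cf F g (Fin.natAdd 4 a) (sm m 2))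
      · change cf F g _ (sm m 1) + cf F g _ (s (sm m 1)) + cf F g _ (t (sm m 1))
          + cf F g _ (s (t (sm m 1))) = _
        rw [t1, s1, s3]
        linear_combination add2 (cf F g (Fin.natAdd 4 a) (sm m 1)) + add2 (cf F g (Fin.natAdd 4 a) (sm m 3))
      · change cf F g _ (sm m 2) + cf F g _ (s (sm m 2)) + cf F g _ (t (sm m 2))
          + cf F g _ (s (t (sm m 2))) = _
        rw [t2, s2]
        linear_combination add2 (cf F g (Fin.natAdd 4 a) (sm m 0)) + add2 (cf F g (Fin.natAdd 4 a) (sm m 2))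
      · change cf F g _ (sm m 3) + cf F g _ (s (sm m 3)) + cf F g _ (t (sm m 3))
          + cf F g _ (s (t (sm m 3))) = _
        rw [t3, s3, s1]
        linear_combination add2 (cf F g (Fin.natAdd 4 a) (sm m 1)) + add2 (cf F g (Fin.natAdd 4 a) (sm m 3))
    · have hz : ¬ ((Fin.natAdd 4 b).val < 4) := by simp
      rw [if_neg (by tauto)]
      rw [hsn, htn, hsn, hsn, htn, hsn]
      linear_combination 2 * add2 (cf F g (Fin.natAdd 4 a) (Fin.natAdd 4 b))
  -- B(Y, W) = 0
  have g1 : e W W = 0 := by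
    have : e W W = e W v + e W (ρ r v) := by
      conv_lhs => rw [show (e W) W = (e W) (v + ρ r v) from rfl]
      rw [map_add]
    rw [this]
    have h3 := hB r W v
    rw [ir, f1] at h3
    rw [← h3]
    exact add_self' _
  have f4 : ρ r (ρ s (ρ t W)) = ρ s (ρ t W) := by
    have q : r * (s * t) = s * t * r' := by
      simp only [hr, hs, ht, hr', ← emb_mul]
      exact congrArg (emb m) (by decide)
    rw [hmul s t W, hmul r (s * t) W, q, ← hmul (s * t) r' W, f2]
  have g2 : e (ρ s (ρ t W)) W = 0 := by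
    have : e (ρ s (ρ t W)) W = e (ρ s (ρ t W)) v + e (ρ s (ρ t W)) (ρ r v) := by
      conv_lhs => rw [show (e (ρ s (ρ t W))) W = (e (ρ s (ρ t W))) (v + ρ r v) from rfl]
      rw [map_add]
    rw [this]
    have h3 := hB r (ρ s (ρ t W)) v
    rw [ir, f4] at h3
    rw [← h3]
    exact add_self' _
  have g3 : e (ρ s W) W = e (ρ t W) W := by
    have hg : ρ (r * r') W = W := by rw [← hmul, f2, f1]
    have ig : (r * r')⁻¹ = r * r' := by
      rw [mul_inv_rev, ir, ir']
      simp only [hr, hr', ← emb_mul]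
      exact congrArg (emb m) (by decide)
    have q : r * r' * s = t * (r * r') := by
      simp only [hr, hs, ht, hr', ← emb_mul]
      exact congrArg (emb m) (by decide)
    have h3 := hB (r * r') (ρ s W) W
    rw [ig, hg, hmul, q, ← hmul, hg] at h3
    exact h3.symm
  have add4 : ∀ x1 x2 x3 x4 w, e (x1 + x2 + x3 + x4) w = e x1 w + e x2 w + e x3 w + e x4 w := by
    intro x1 x2 x3 x4 w
    rw [map_add, map_add, map_add]
    rfl
  have g4 : e Y W = 0 := by
    have : e Y W = e W W + e (ρ s W) W + e (ρ t W) W + e (ρ s (ρ t W)) W :=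
      add4 W (ρ s W) (ρ t W) (ρ s (ρ t W)) W
    rw [this, g1, g2, g3, zero_add, add_zero]
    exact add_self' _
  have g5 : ∀ g : Perm (Fin (4 + m)), e (vX F g) Y = 0 := by
    intro g
    have e1 : e (vX F g) Y = e (vX F g) W + e (vX F g) (ρ s W) + e (vX F g) (ρ t W)
        + e (vX F g) (ρ s (ρ t W)) := by
      rw [hY, map_add, map_add, map_add]
    have b1 := hB s (vX F g) W
    have b2 := hB t (vX F g) W
    have b3 := hB s (vX F g) (ρ t W)
    have b4 := hB t (ρ s (vX F g)) W
    rw [is] at b1 b3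
    rw [it] at b2 b4
    rw [e1, ← b1, ← b2, ← b3, ← b4]
    have e2 : e (vX F g) W + e (ρ s (vX F g)) W + e (ρ t (vX F g)) W + e (ρ t (ρ s (vX F g))) W
        = e (vX F g + ρ s (vX F g) + ρ t (vX F g) + ρ t (ρ s (vX F g))) W :=
      (add4 _ _ _ _ _).symm
    have e3 : vX F g + ρ s (vX F g) + ρ t (vX F g) + ρ t (ρ s (vX F g))
        = vX F g + vX F (s * g) + vX F (t * g) + vX F (t * s * g) := by
      rw [hρ, rho_vX, rho_vX, rho_vX, mul_assoc]
    rw [e2, e3, f3, map_smul, LinearMap.smul_apply, g4, smul_zero]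
  have g6 : ∀ x, e x Y = 0 := by
    intro x
    exact X_ind ((LinearMap.applyₗ Y).comp e.toLinearMap) g5 x
  have g7 : Y = 0 := by
    rw [← Module.forall_dual_apply_eq_zero_iff F]
    intro φ
    have := g6 (e.symm φ)
    rwa [e.apply_symm_apply] at this
  have g8 := hYco 1
  rw [g7, map_zero, if_pos] at g8
  · exact zero_ne_one g8
  · refine ⟨?_, ?_, ?_⟩
    · change 0 < 4; norm_num
    · change 1 < 4; norm_num
    · change (0 + 1) % 2 = 1; norm_num

end NotSelfDual

/-! ## The statements of the problem and the result -/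

/-- `X^q_F` is self-dual. -/
def XSelfDual (F : Type u) [Field F] {n : ℕ} (q : Composition n) : Prop :=
  SelfDual (descentRep F q)

/-- `X^q_F` is a trivial source module. -/
def XTrivialSource (F : Type u) [Field F] {n : ℕ} (q : Composition n) : Prop :=
  TrivialSource (descentRep F q)

/-- `X^q_F` is a direct sum of Young modules. -/
def XSumOfYoung (F : Type u) [Field F] {n : ℕ} (q : Composition n) : Prop :=
  SumOfYoung (descentRep F q)

/-- The composition `(2, 1, …, 1)` of `n ≥ 4`. -/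
def hook (n : ℕ) (hn : 4 ≤ n) : Composition n := hookComp n (le_trans (by norm_num) hn)

/-- Q1, first assertion: every `X^q_F` (`F` an infinite field, `q` a composition of `n ≥ 1`) is
self-dual. -/
def Q1SelfDual : Prop :=
  ∀ (F : Type) [Field F] [Infinite F] (n : ℕ) (q : Composition n), 1 ≤ n → XSelfDual F q

/-- Q1, second assertion: every `X^q_F` is a trivial source module. -/
def Q1TrivialSource : Prop :=
  ∀ (F : Type) [Field F] [Infinite F] (n : ℕ) (q : Composition n), 1 ≤ n → XTrivialSource F q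

/-- Q2: every `X^q_F` is a direct sum of Young modules. -/
def Q2Young : Prop :=
  ∀ (F : Type) [Field F] [Infinite F] (n : ℕ) (q : Composition n), 1 ≤ n → XSumOfYoung F q

lemma main (F : Type u) [Field F] [CharP F 2] (n : ℕ) (hn : 4 ≤ n) :
    ¬ XSelfDual F (hook n hn) ∧ ¬ XTrivialSource F (hook n hn) ∧
      ¬ XSumOfYoung F (hook n hn) := by
  obtain ⟨m, rfl⟩ : ∃ m, n = 4 + m := ⟨n - 4, by omega⟩
  exact ⟨not_selfDual, fun h => not_good (good_of_trivialSource h _ rot_pow),
    fun h => not_good (good_of_sumOfYoung h _ rot_pow)⟩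

/-- For every field `F` of characteristic two and every `n ≥ 4`, the module `X^q_F` with
`q = (2, 1, …, 1)` is not self-dual, is not a trivial source module and is not a direct sum of
Young modules.  Hence all three assertions (both parts of Q1, and Q2) are false. -/
theorem result :
    (∀ (F : Type u) [Field F] [CharP F 2] (n : ℕ) (hn : 4 ≤ n),
      ¬ XSelfDual F (hook n hn) ∧ ¬ XTrivialSource F (hook n hn) ∧
      ¬ XSumOfYoung F (hook n hn)) ∧
    ¬ Q1SelfDual ∧ ¬ Q1TrivialSource ∧ ¬ Q2Young := by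
  have : Infinite (AlgebraicClosure (ZMod 2)) := IsAlgClosed.instInfinite
  have k := main (AlgebraicClosure (ZMod 2)) 4 le_rfl
  exact ⟨fun F _ _ n hn => main F n hn, fun h => k.1 (h _ 4 _ (by norm_num)),
    fun h => k.2.1 (h _ 4 _ (by norm_num)), fun h => k.2.2 (h _ 4 _ (by norm_num))⟩

end Pool.Agent.Results.MP_45e6b1_al.DescentIdeals
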